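import Pool.Agent.Y428.Sp.WD

set_option autoImplicit false

open Classical

namespace Pool.Agent.Y428.Sp

open Pool.Agent.TH476

/-- windows of length two, one leg of length one -/
theorem winB1 (s : ℕ) (j : Fin s → ℕ) (i0 : Fin s) (K t : ℕ) (hK : 0 < K) (ht : 0 < t)
    (hj0 : j i0 = 1) (hj : ∀ i, i ≠ i0 → 2 ≤ j i) : Win s j K t 2 := by
  intro A
  obtain ⟨A', E, hE, hfam⟩ := win_fam K 2 A hK le_rfl
  refine ⟨A', fun L' => ?_⟩
  obtain ⟨e, he⟩ : ∃ e, e = ∑ i, j i := ⟨_, rfl⟩
  have hje : ∀ i, j i ≤ e := fun i => by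
    rw [he]
    exact Finset.single_le_sum (f := j) (fun _ _ => Nat.zero_le _) (Finset.mem_univ i)
  obtain ⟨M, hM⟩ : ∃ M, M = t * (e + 1) + 1 + s + e + s * e + e + 3 := ⟨_, rfl⟩
  obtain ⟨C1, hC1⟩ := hubs K E (M + 1) (t * (e + 1) + 1) (s + 1) hK hE (by omega) (by omega)
    (by omega)
  obtain ⟨L, C0, hC0⟩ := hfam (L' + 1) (L' + 1 + M + 1 + C1) (by omega) (by omega)
  refine ⟨L, C0 + C1 + E * M + 1, ?_⟩
  intro V _ _ G D hG hD hA hW
  obtain ⟨𝓟, h𝓟⟩ := hC0 V G D hG (by omega) hA
    (WNA_mono G D _ _ _ _ _ _ le_rfl le_rfl (by omega) hW)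
  obtain ⟨w, J, ξ0, ρ0, hJ, hξ0, hρ0, hξρ0, hξJ0, hρJ0, hcρ0, hcξ0⟩ := hC1 V G D _ _ 𝓟 hG (by omega)
    (by omega) h𝓟
  have hJpos : 0 < J.card := by omega
  obtain ⟨c0, hc0⟩ := Finset.card_pos.mp hJpos
  -- choose the indices whose vertex is not w
  obtain ⟨g, hg1, hg2⟩ := exists_inj ((Finset.univ : Finset (Fin (s + 1))).filter
    (fun i => ξ0 i ≠ w)) s (by
      have h1 : ((Finset.univ : Finset (Fin (s + 1))).filter (fun i => ¬ ξ0 i ≠ w)).card ≤ 1 := by
        rw [Finset.card_le_one]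
        intro a ha b hb
        have h2 := (Finset.mem_filter.mp ha).2
        have h3 := (Finset.mem_filter.mp hb).2
        push Not at h2 h3
        exact hξ0 (h2.trans h3.symm)
      have h2 := Finset.card_filter_add_card_filter_not (s := (Finset.univ : Finset (Fin (s + 1))))
        (fun i => ξ0 i ≠ w)
      rw [Finset.card_univ, Fintype.card_fin] at h2
      omega)
  obtain ⟨ξ, hξd⟩ : ∃ ξ : Fin s → V, ξ = fun i => ξ0 (g i) := ⟨_, rfl⟩
  obtain ⟨ρ, hρd⟩ : ∃ ρ : Fin s → V, ρ = fun i => ρ0 (g i) := ⟨_, rfl⟩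
  have hξ : Function.Injective ξ := by
    rw [hξd]
    exact hξ0.comp hg1
  have hρ : Function.Injective ρ := by
    rw [hρd]
    exact hρ0.comp hg1
  have hξρ : ∀ i i', ξ i ≠ ρ i' := by
    intro i i'
    rw [hξd, hρd]
    exact hξρ0 _ _
  have hξw : ∀ i, ξ i ≠ w := by
    intro i
    rw [hξd]
    exact (Finset.mem_filter.mp (hg2 i)).2
  have hξJ : ∀ i, ξ i ∉ J := fun i => by rw [hξd]; exact hξJ0 _
  have hρJ : ∀ i, ρ i ∉ J := fun i => by rw [hρd]; exact hρJ0 _
  have hcρ : ∀ c ∈ J, ∀ i, ![c, w, ρ i] ∈ 𝓟 := fun c hc i => by rw [hρd]; exact hcρ0 c hc _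
  have hcξ : ∀ c ∈ J, ∀ i, M + 1 ≤
      (Finset.univ.filter (fun b' => ![c, w, b'] ∈ 𝓟 ∧ G.Adj b' (ξ i))).card :=
    fun c hc i => by rw [hξd]; exact hcξ0 c hc _
  have hfacts := (mid_facts G D _ _ E 𝓟 h𝓟 w).1
  have hρw : ∀ i, ρ i ≠ w := fun i => (hfacts c0 (ρ i) (hcρ c0 hc0 i)).2.1.ne.symm
  have hJw : ∀ c ∈ J, G.Adj c w := fun c hc => (hfacts c (ρ i0) (hcρ c hc i0)).1.symm
  refine TBs_gen G j (fun i => by
      by_cases h : i = i0
      · rw [h, hj0]
      · have := hj i h; omega) i0 t ht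
    (fun i => if i = i0 then w else if j i % 2 = 0 then ρ i else ξ i) ?_ ?_
  · intro i i' h
    simp only at h
    split_ifs at h with h1 h2 h3 h4 h5 h6 h7 h8
    · rw [h1, h2]
    · exact absurd h.symm (hρw i')
    · exact absurd h.symm (hξw i')
    · exact absurd h (hρw i)
    · exact hρ h
    · exact absurd h.symm (hξρ i' i)
    · exact absurd h (hξw i)
    · exact absurd h (hξρ i i')
    · exact hξ h
  · intro Z hZ hxZ
    rw [← he] at hZ ⊢
    obtain ⟨c, hc1, hc2⟩ : ∃ c ∈ J, c ∉ Z := by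
      by_contra hcon
      push Not at hcon
      have := Finset.card_le_card (show J ⊆ Z from hcon)
      omega
    refine ⟨c, hc2, ?_, {i0}, fun _ a => if a = 0 then c else w, ?_, ?_, ?_, ?_⟩
    · intro i h
      split_ifs at h with h1 h2
      · exact (hJw c hc1).ne h.symm
      · exact hρJ i (h ▸ hc1)
      · exact hξJ i (h ▸ hc1)
    · intro i hi
      rw [Finset.mem_singleton] at hi
      rw [if_pos hi, hi, hj0]
      constructor
      · intro a ha
        have ha0 : a = 0 := by omega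
        subst ha0
        simp only [if_true]
        exact hJw c hc1
      · intro a a' ha ha' h
        simp only at h
        by_cases h1 : a = 0
        · by_cases h2 : a' = 0
          · omega
          · rw [if_pos h1, if_neg h2] at h
            exact absurd h (hJw c hc1).ne
        · by_cases h2 : a' = 0
          · rw [if_neg h1, if_pos h2] at h
            exact absurd h.symm (hJw c hc1).ne
          · omega
      · simp
      · simp
      · intro a ha1 ha2
        omega
    · intro i hi i' a ha1 ha2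
      rw [Finset.mem_singleton] at hi
      rw [hi, hj0] at ha2
      omega
    · intro i hi i' hi' hne
      rw [Finset.mem_singleton] at hi hi'
      exact absurd (hi.trans hi'.symm) hne
    · intro i hi Z' hZ'
      rw [Finset.mem_singleton] at hi
      rw [if_neg hi]
      have hji := hj i hi
      have hje' := hje i
      by_cases hpar : j i % 2 = 0
      · rw [if_pos hpar]
        have h1 := h𝓟.leg le_rfl M (by omega) (by omega) _ (hcρ c hc1 i) (j i) hji Z' (by omega)
        rw [if_pos (by omega : (j i - 2) % 2 = 0)] at h1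
        exact h1
      · rw [if_neg hpar]
        obtain ⟨b', hb1, hb2⟩ : ∃ b' ∈ Finset.univ.filter
            (fun b' => ![c, w, b'] ∈ 𝓟 ∧ G.Adj b' (ξ i)), b' ∉ Z' := by
          by_contra hcon
          push Not at hcon
          have h1 := Finset.card_le_card (show Finset.univ.filter
            (fun b' => ![c, w, b'] ∈ 𝓟 ∧ G.Adj b' (ξ i)) ⊆ Z' from hcon)
          have h2 := hcξ c hc1 i
          omega
        obtain ⟨_, hb3, hb4⟩ := Finset.mem_filter.mp hb1
        have h1 := h𝓟.leg le_rfl M (by omega) (by omega) _ hb3 (j i - 1) (by omega)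
          (insert (ξ i) Z') (by
            have := Finset.card_insert_le (ξ i) Z'
            omega)
        rw [if_pos (by omega : (j i - 1 - 2) % 2 = 0)] at h1
        have h2 : Leg G c b' (j i - 1) (insert (ξ i) Z') := h1
        have h3 := h2.snoc hb2 hb4 (fun h => hξJ i (h ▸ hc1))
        rwa [show j i - 1 + 1 = j i by omega] at h3

end Pool.Agent.Y428.Sp
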