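import Pool.Agent.Y428.Sp.Win2

set_option autoImplicit false

open Classical

namespace Pool.Agent.Y428.Sp

open Pool.Agent.TH476

/-- P up to position b, then σ -/
def comb {V : Type} (l b : ℕ) (P σ : Fin (l + 1) → V) : Fin (l + 1) → V :=
  fun a => if a.val ≤ b then P a else σ a

lemma comb_lo {V : Type} (l b : ℕ) (P σ : Fin (l + 1) → V) (a : Fin (l + 1)) (h : a.val ≤ b) :
    comb l b P σ a = P a := by
  unfold comb
  rw [if_pos h]

lemma comb_hi {V : Type} (l b : ℕ) (P σ : Fin (l + 1) → V) (a : Fin (l + 1)) (h : b < a.val) :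
    comb l b P σ a = σ a := by
  unfold comb
  rw [if_neg (by omega)]

lemma comb_hom {V : Type} (G : SimpleGraph V) (l b : ℕ) (P σ : Fin (l + 1) → V)
    (hP : Hom (PA l) G P) (hσ : Hom (PA l) G σ)
    (h : ∀ a : Fin (l + 1), a.val = b → P a = σ a) : Hom (PA l) G (comb l b P σ) := by
  have key : ∀ u v : Fin (l + 1), u.val + 1 = v.val →
      G.Adj (comb l b P σ u) (comb l b P σ v) := by
    intro u v huv
    rcases Nat.lt_or_ge b v.val with h1 | h1
    · rw [comb_hi l b P σ v h1]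
      rcases Nat.lt_or_ge b u.val with h2 | h2
      · rw [comb_hi l b P σ u h2]
        exact hσ u v ((PA_adj u v).mpr (Or.inl huv))
      · rw [comb_lo l b P σ u h2, h u (by omega)]
        exact hσ u v ((PA_adj u v).mpr (Or.inl huv))
    · rw [comb_lo l b P σ v h1, comb_lo l b P σ u (by omega)]
      exact hP u v ((PA_adj u v).mpr (Or.inl huv))
  intro u v huv
  rcases (PA_adj u v).mp huv with h1 | h1
  · exact key u v h1
  · exact (key v u h1).symm

/-- disjoint initial segments with common disjoint final segments -/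
lemma sufb (K l E T' b s : ℕ) (hK : 0 < K) (hb1 : 1 ≤ b) (hb2 : b < l) (hE : 0 < E)
    (hT' : 0 < T') :
    ∃ C1, ∀ (V : Type) [Fintype V] [Nonempty V] (G : SimpleGraph V) (D : ℕ) (L' L2 : ℕ)
      (𝓟 : Finset (Fin (l + 1) → V)), AR G D K → C1 ≤ D → WG G D l L' L2 E 𝓟 →
      ∃ (w : V) (F : Fin T' → Fin (l + 1) → V) (S : Fin s → Fin (l + 1) → V),
        (∀ r, F r ∈ 𝓟 ∧ F r ⟨b, by omega⟩ = w) ∧ (∀ r i, comb l b (F r) (S i) ∈ 𝓟) ∧
        (∀ r r', r ≠ r' → ∀ a a' : Fin (l + 1), a.val < b → a'.val < b → F r a ≠ F r' a') ∧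
        (∀ r i, ∀ a a' : Fin (l + 1), a.val < b → b < a'.val → F r a ≠ S i a') ∧
        (∀ i i', i ≠ i' → ∀ a a' : Fin (l + 1), b < a.val → b < a'.val → S i a ≠ S i' a') ∧
        (∀ i, ∀ a : Fin (l + 1), b < a.val → S i a ≠ w) := by
  obtain ⟨E2, hE2⟩ : ∃ E2, E2 = E * K ^ (l - b) := ⟨_, rfl⟩
  have hE2pos : 0 < E2 := by rw [hE2]; positivity
  obtain ⟨T, hT⟩ : ∃ T, T = 2 * (E2 * T') := ⟨_, rfl⟩
  obtain ⟨E4, hE4⟩ : ∃ E4, E4 = E * (2 * E2 * 2 ^ T) := ⟨_, rfl⟩
  obtain ⟨N2, hN2⟩ : ∃ N2, N2 = 1 + T * (l + 1) + s * (l + 1) := ⟨_, rfl⟩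
  refine ⟨E * ((l + 1) * (T * (l + 1)) * K ^ (b - 1)) +
    E4 * ((l + 1) * N2 * K ^ (l - b - 1)) + 1, ?_⟩
  intro V _ _ G D L' L2 𝓟 hG hD hW
  have hDpos : 0 < D := by omega
  obtain ⟨P0, hP0⟩ := hW.wf.ne
  have hcP : (Pre l b).card = b + 1 := card_Pre l b hb2.le
  have hcS : (Suf l b).card = l - b + 1 := card_Suf l b hb2.le
  -- disjoint starts
  obtain ⟨F1, hF1, -, hF1d⟩ := greedy (κ := Fin T) (α := Fin (l + 1) → V) (V := V)
    (fun _ σ => (Finset.univ.filter (fun a : Fin (l + 1) => a.val < b)).image σ) (l + 1)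
    (fun _ Q => Q ∈ 𝓟.filter (fun Q => Ag (Suf l b) Q P0)) ∅
    (fun _ σ _ => by
      refine Finset.card_image_le.trans ((Finset.card_le_univ _).trans ?_)
      rw [Fintype.card_fin])
    (fun _ Z hZ => by
      rw [Finset.card_empty, zero_add, Fintype.card_fin] at hZ
      by_contra hcon
      push Not at hcon
      have hsub : 𝓟.filter (fun Q => Ag (Suf l b) Q P0) ⊆
          ((Finset.univ.filter (fun a : Fin (l + 1) => a.val < b)) ×ˢ Z).biUnion
          (fun az => (𝓟.filter (fun Q => Ag (Suf l b) Q P0)).filter (fun σ => σ az.1 = az.2)) := by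
        intro σ hσ
        have h1 := hcon σ hσ
        rw [Finset.not_disjoint_iff] at h1
        obtain ⟨z, hz1, hz2⟩ := h1
        obtain ⟨a, ha, rfl⟩ := Finset.mem_image.mp hz1
        rw [Finset.mem_biUnion]
        exact ⟨(a, σ a), Finset.mem_product.mpr ⟨ha, hz2⟩, Finset.mem_filter.mpr ⟨hσ, rfl⟩⟩
      have h2 : (𝓟.filter (fun Q => Ag (Suf l b) Q P0)).card ≤
          (l + 1) * (T * (l + 1)) * (K * D) ^ (b - 1) := by
        refine (Finset.card_le_card hsub).trans ((Finset.card_biUnion_le_card_mul _ _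
          ((K * D) ^ (b - 1)) ?_).trans ?_)
        · rintro ⟨a, z⟩ haz
          have ha := (Finset.mem_filter.mp (Finset.mem_product.mp haz).1).2
          have ha' : a ∉ Suf l b := by
            rw [mem_Suf]
            simp only at ha
            omega
          have h3 := hom_le_ins (PA l) (PA_conn l) G D K hG (Suf l b) a ha' P0 z
            ((𝓟.filter (fun Q => Ag (Suf l b) Q P0)).filter (fun σ => σ a = z))
            (fun σ hσ => (hW.wf.emb σ (Finset.mem_filter.mp (Finset.mem_filter.mp hσ).1).1).1)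
            (fun σ hσ => (Finset.mem_filter.mp (Finset.mem_filter.mp hσ).1).2)
            (fun σ hσ => (Finset.mem_filter.mp hσ).2)
          rw [hcS, Fintype.card_fin, show l + 1 - (l - b + 1 + 1) = b - 1 by omega] at h3
          exact h3
        · rw [Finset.card_product]
          refine Nat.mul_le_mul_right _ (Nat.mul_le_mul ?_ hZ)
          refine (Finset.card_le_univ _).trans ?_
          rw [Fintype.card_fin]
      have h5 : D ^ (b - 1) * D ≤ D ^ (b - 1) *
          (E * ((l + 1) * (T * (l + 1)) * K ^ (b - 1))) := by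
        calc D ^ (b - 1) * D = D ^ b := by
              rw [← pow_succ]
              congr 1
              omega
          _ ≤ E * (𝓟.filter (fun Q => Ag (Suf l b) Q P0)).card := hW.suf b hb1 hb2 P0 hP0
          _ ≤ E * ((l + 1) * (T * (l + 1)) * (K * D) ^ (b - 1)) := Nat.mul_le_mul_left _ h2
          _ = _ := by rw [mul_pow]; ring
      have h6 := Nat.le_of_mul_le_mul_left h5 (by positivity)
      omega)
  have hF1m : ∀ r, F1 r ∈ 𝓟 ∧ Ag (Suf l b) (F1 r) P0 := fun r => Finset.mem_filter.mp (hF1 r)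
  -- suffixes
  obtain ⟨Ω, hΩ⟩ : ∃ Ω, Ω = (Finset.univ : Finset (Fin (l + 1) → V)).filter
    (fun σ => Hom (PA l) G σ ∧ Ag (Pre l b) σ P0) := ⟨_, rfl⟩
  have hΩm : ∀ σ, σ ∈ Ω ↔ Hom (PA l) G σ ∧ Ag (Pre l b) σ P0 := by
    intro σ
    rw [hΩ, Finset.mem_filter]
    simp
  have hPne : (Pre l b).Nonempty := ⟨0, (mem_Pre _ _ _).mpr (by simp)⟩
  have hΩc : Ω.card ≤ (K * D) ^ (l - b) := by
    have h1 := hom_leS (PA l) (PA_conn l) G D K hG (Pre l b) hPne P0 Ω
      (fun σ hσ => ((hΩm σ).mp hσ).1) (fun σ hσ => ((hΩm σ).mp hσ).2)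
    rw [hcP, Fintype.card_fin, show l + 1 - (b + 1) = l - b by omega] at h1
    exact h1
  obtain ⟨S, hS⟩ : ∃ S : Fin T → Finset (Fin (l + 1) → V), S = fun r =>
    Ω.filter (fun σ => comb l b (F1 r) σ ∈ 𝓟) := ⟨_, rfl⟩
  have hSm : ∀ r σ, σ ∈ S r ↔ σ ∈ Ω ∧ comb l b (F1 r) σ ∈ 𝓟 := by
    intro r σ
    rw [hS]
    exact Finset.mem_filter
  have hSc : ∀ r, D ^ (l - b) ≤ E * (S r).card := by
    intro r
    refine (hW.pre b hb1 hb2 _ (hF1m r).1).trans (Nat.mul_le_mul_left _ ?_)
    refine Finset.card_le_card_of_injOn (fun Q : Fin (l + 1) → V => comb l b P0 Q) ?_ ?_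
    · intro Q hQ
      obtain ⟨h1, h2⟩ := Finset.mem_filter.mp (Finset.mem_coe.mp hQ)
      refine Finset.mem_coe.mpr ((hSm r _).mpr ⟨(hΩm _).mpr ⟨?_, ?_⟩, ?_⟩)
      · refine comb_hom G l b P0 Q (hW.wf.emb P0 hP0).1 (hW.wf.emb Q h1).1 ?_
        intro a ha
        rw [h2 a ((mem_Pre _ _ _).mpr ha.le), (hF1m r).2 a ((mem_Suf _ _ _).mpr ha.ge)]
      · intro a ha
        exact comb_lo l b P0 Q a ((mem_Pre _ _ _).mp ha)
      · have : comb l b (F1 r) (comb l b P0 Q) = Q := by
          funext a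
          rcases Nat.lt_or_ge b a.val with h3 | h3
          · rw [comb_hi _ _ _ _ a h3, comb_hi _ _ _ _ a h3]
          · rw [comb_lo _ _ _ _ a h3, h2 a ((mem_Pre _ _ _).mpr h3)]
        rw [this]
        exact h1
    · intro Q hQ Q' hQ' he
      obtain ⟨h1, h2⟩ := Finset.mem_filter.mp (Finset.mem_coe.mp hQ)
      obtain ⟨h1', h2'⟩ := Finset.mem_filter.mp (Finset.mem_coe.mp hQ')
      funext a
      rcases Nat.lt_or_ge b a.val with h3 | h3
      · have := congrFun he a
        simp only at this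
        rwa [comb_hi _ _ _ _ a h3, comb_hi _ _ _ _ a h3] at this
      · rw [h2 a ((mem_Pre _ _ _).mpr h3), h2' a ((mem_Pre _ _ _).mpr h3)]
  have hSd : ∀ r ∈ (Finset.univ : Finset (Fin T)), Ω.card ≤ E2 * (S r).card := by
    intro r _
    refine hΩc.trans ?_
    rw [mul_pow, hE2]
    calc K ^ (l - b) * D ^ (l - b) ≤ K ^ (l - b) * (E * (S r).card) :=
          Nat.mul_le_mul_left _ (hSc r)
      _ = _ := by ring
  obtain ⟨J, hJ1, hJ2, Ω', hΩ', hΩ'2, hJ3⟩ := common (Finset.univ : Finset (Fin T)) S Ω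
    (fun c _ σ hσ => ((hSm c σ).mp hσ).1) T' E2 hT' hE2pos hSd
    (by rw [Finset.card_univ, Fintype.card_fin, hT])
  rw [Finset.card_univ, Fintype.card_fin] at hJ3
  obtain ⟨e, he1, he2⟩ := exists_inj J T' (by rw [hJ2])
  have hΩ'c : D ^ (l - b) ≤ E4 * Ω'.card := by
    have h2 : (S (e ⟨0, hT'⟩)).card ≤ Ω.card :=
      Finset.card_le_card (fun σ hσ => ((hSm _ σ).mp hσ).1)
    rw [hE4]
    calc D ^ (l - b) ≤ E * Ω.card := (hSc _).trans (Nat.mul_le_mul_left _ h2)
      _ ≤ E * (2 * E2 * 2 ^ T * Ω'.card) := Nat.mul_le_mul_left _ hJ3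
      _ = _ := by ring
  obtain ⟨Z0, hZ0⟩ : ∃ Z0, Z0 = insert (P0 ⟨b, by omega⟩) ((Finset.univ : Finset (Fin T)).biUnion
    (fun r => (Finset.univ.filter (fun a : Fin (l + 1) => a.val < b)).image (F1 r))) := ⟨_, rfl⟩
  have hZ0c : Z0.card ≤ 1 + T * (l + 1) := by
    rw [hZ0]
    refine (Finset.card_insert_le _ _).trans ?_
    have h1 : ((Finset.univ : Finset (Fin T)).biUnion (fun r =>
        (Finset.univ.filter (fun a : Fin (l + 1) => a.val < b)).image (F1 r))).card ≤
        T * (l + 1) := by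
      refine (Finset.card_biUnion_le_card_mul _ _ (l + 1) ?_).trans ?_
      · intro r _
        refine Finset.card_image_le.trans ((Finset.card_le_univ _).trans ?_)
        rw [Fintype.card_fin]
      · rw [Finset.card_univ, Fintype.card_fin]
    omega
  obtain ⟨F, hF1', hF2, hF3⟩ := greedy (κ := Fin s) (α := Fin (l + 1) → V) (V := V)
    (fun _ σ => (Finset.univ.filter (fun a : Fin (l + 1) => b < a.val)).image σ) (l + 1)
    (fun _ σ => σ ∈ Ω') Z0
    (fun _ σ _ => by
      refine Finset.card_image_le.trans ((Finset.card_le_univ _).trans ?_)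
      rw [Fintype.card_fin])
    (fun _ Z hZ => by
      rw [Fintype.card_fin] at hZ
      by_contra hcon
      push Not at hcon
      have hsub : Ω' ⊆ ((Finset.univ.filter (fun a : Fin (l + 1) => b < a.val)) ×ˢ Z).biUnion
          (fun az => Ω.filter (fun σ => σ az.1 = az.2)) := by
        intro σ hσ
        have h1 := hcon σ hσ
        rw [Finset.not_disjoint_iff] at h1
        obtain ⟨z, hz1, hz2⟩ := h1
        obtain ⟨a, ha, rfl⟩ := Finset.mem_image.mp hz1
        rw [Finset.mem_biUnion]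
        exact ⟨(a, σ a), Finset.mem_product.mpr ⟨ha, hz2⟩, Finset.mem_filter.mpr ⟨hΩ' hσ, rfl⟩⟩
      have h2 : Ω'.card ≤ (l + 1) * N2 * (K * D) ^ (l - b - 1) := by
        refine (Finset.card_le_card hsub).trans ((Finset.card_biUnion_le_card_mul _ _
          ((K * D) ^ (l - b - 1)) ?_).trans ?_)
        · rintro ⟨a, z⟩ haz
          have ha := (Finset.mem_filter.mp (Finset.mem_product.mp haz).1).2
          have ha' : a ∉ Pre l b := by
            rw [mem_Pre]
            simp only at ha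
            omega
          have h3 := hom_le_ins (PA l) (PA_conn l) G D K hG (Pre l b) a ha' P0 z
            (Ω.filter (fun σ => σ a = z)) (fun σ hσ => ((hΩm σ).mp (Finset.mem_filter.mp hσ).1).1)
            (fun σ hσ => ((hΩm σ).mp (Finset.mem_filter.mp hσ).1).2)
            (fun σ hσ => (Finset.mem_filter.mp hσ).2)
          rw [hcP, Fintype.card_fin, show l + 1 - (b + 1 + 1) = l - b - 1 by omega] at h3
          exact h3
        · rw [Finset.card_product]
          refine Nat.mul_le_mul_right _ (Nat.mul_le_mul ?_ ?_)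
          · refine (Finset.card_le_univ _).trans ?_
            rw [Fintype.card_fin]
          · rw [hN2]
            omega
      have h5 : D ^ (l - b - 1) * D ≤ D ^ (l - b - 1) *
          (E4 * ((l + 1) * N2 * K ^ (l - b - 1))) := by
        calc D ^ (l - b - 1) * D = D ^ (l - b) := by
              rw [← pow_succ]
              congr 1
              omega
          _ ≤ E4 * Ω'.card := hΩ'c
          _ ≤ E4 * ((l + 1) * N2 * (K * D) ^ (l - b - 1)) := Nat.mul_le_mul_left _ h2
          _ = _ := by rw [mul_pow]; ring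
      have h6 := Nat.le_of_mul_le_mul_left h5 (by positivity)
      omega)
  have hF2' : ∀ i (a : Fin (l + 1)), b < a.val → F i a ∉ Z0 := by
    intro i a ha
    exact Finset.disjoint_left.mp (hF2 i) (Finset.mem_image_of_mem _
      (Finset.mem_filter.mpr ⟨Finset.mem_univ _, ha⟩))
  refine ⟨P0 ⟨b, by omega⟩, fun r => F1 (e r), F, ?_, ?_, ?_, ?_, ?_, ?_⟩
  · intro r
    exact ⟨(hF1m _).1, (hF1m _).2 _ ((mem_Suf _ _ _).mpr le_rfl)⟩
  · intro r i
    exact ((hSm _ _).mp (hΩ'2 _ (hF1' i) _ (he2 r))).2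
  · intro r r' hne a a' ha ha' h
    refine Finset.disjoint_left.mp (hF1d (e r) (e r') (fun h => hne (he1 h)))
      (Finset.mem_image_of_mem _ (Finset.mem_filter.mpr ⟨Finset.mem_univ _, ha⟩)) ?_
    have h' : F1 (e r) a = F1 (e r') a' := h
    rw [h']
    exact Finset.mem_image_of_mem _ (Finset.mem_filter.mpr ⟨Finset.mem_univ _, ha'⟩)
  · intro r i a a' ha ha' h
    apply hF2' i a' ha'
    have h' : F1 (e r) a = F i a' := h
    rw [← h', hZ0]
    exact Finset.mem_insert_of_mem (Finset.mem_biUnion.mpr ⟨e r, Finset.mem_univ _,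
      Finset.mem_image_of_mem _ (Finset.mem_filter.mpr ⟨Finset.mem_univ _, ha⟩)⟩)
  · intro i i' hne a a' ha ha' h
    refine Finset.disjoint_left.mp (hF3 i i' hne) (Finset.mem_image_of_mem _
      (Finset.mem_filter.mpr ⟨Finset.mem_univ _, ha⟩)) ?_
    rw [h]
    exact Finset.mem_image_of_mem _ (Finset.mem_filter.mpr ⟨Finset.mem_univ _, ha'⟩)
  · intro i a ha h
    apply hF2' i a ha
    rw [h, hZ0]
    exact Finset.mem_insert_self _ _

/-- windows with one shorter leg -/
theorem winD (s : ℕ) (j : Fin s → ℕ) (i0 : Fin s) (K t l : ℕ) (hK : 0 < K) (ht : 0 < t)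
    (hl1 : 1 ≤ j i0) (hl2 : j i0 < l) (hj : ∀ i, i ≠ i0 → l ≤ j i)
    (hpar : j i0 + 2 ≤ l ∨ ∀ i, i ≠ i0 → (j i - l) % 2 = 0) : Win s j K t l := by
  intro A
  obtain ⟨A', E, hE, hfam⟩ := win_fam2 K l A hK (by omega)
  refine ⟨A', fun L' => ?_⟩
  obtain ⟨b, hb⟩ : ∃ b, b = j i0 := ⟨_, rfl⟩
  rw [← hb] at hl1 hl2 hpar
  obtain ⟨e, he⟩ : ∃ e, e = ∑ i, j i := ⟨_, rfl⟩
  have hje : ∀ i, j i ≤ e := fun i => by
    rw [he]
    exact Finset.single_le_sum (f := j) (fun _ _ => Nat.zero_le _) (Finset.mem_univ i)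
  obtain ⟨M, hM⟩ : ∃ M, M = t * (e + 1) + 1 + s + e + s * e + e + 2 := ⟨_, rfl⟩
  obtain ⟨L, C0, hC0⟩ := hfam (L' + 1) (L' + 1 + M + 1) (by omega) (by omega)
  obtain ⟨C1, hC1⟩ := sufb K l E (t * (e + 1) + 1) b s hK hl1 hl2 hE (by omega)
  refine ⟨L, C0 + C1 + E * M + 1, ?_⟩
  intro V _ _ G D hG hD hA hW
  obtain ⟨𝓟, h𝓟⟩ := hC0 V G D hG (by omega) hA
    (WNA_mono G D _ _ _ _ _ _ le_rfl le_rfl (by omega) hW)
  obtain ⟨w, F, S, hF, hFS, hFd, hFSd, hSd, hSw⟩ := hC1 V G D _ _ 𝓟 hG (by omega) h𝓟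
  obtain ⟨y, hy⟩ : ∃ y : Fin s → Fin (l + 1), y = fun i =>
    if (j i - l) % 2 = 0 then Fin.last l else ⟨l - 1, by omega⟩ := ⟨_, rfl⟩
  have hyb : ∀ i, i ≠ i0 → b < (y i).val := by
    intro i hi
    rw [hy]
    simp only
    split_ifs with h
    · rw [Fin.val_last]
      exact hl2
    · simp only
      rcases hpar with h1 | h1
      · omega
      · exact absurd (h1 i hi) h
  have hinj : ∀ r a a', F r a = F r a' → a = a' := fun r a a' h => (h𝓟.wf.emb _ (hF r).1).2 h
  refine TBs_gen G j (fun i => by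
      by_cases h : i = i0
      · rw [h, ← hb]; exact hl1
      · have := hj i h; omega) i0 t ht (fun i => if i = i0 then w else S i (y i)) ?_ ?_
  · intro i i' h
    simp only at h
    split_ifs at h with h1 h2 h2
    · rw [h1, h2]
    · exact absurd h.symm (hSw i' _ (hyb i' h2))
    · exact absurd h (hSw i _ (hyb i h1))
    · by_contra hne
      exact hSd i i' hne _ _ (hyb i h1) (hyb i' h2) h
  · intro Z hZ hxZ
    rw [← he] at hZ ⊢
    obtain ⟨r, hr⟩ := avoid (fun r => (Finset.univ.filter (fun a : Fin (l + 1) => a.val < b)).image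
      (F r)) (fun r r' hne => by
        rw [Finset.disjoint_left]
        intro z hz hz'
        obtain ⟨a, ha, rfl⟩ := Finset.mem_image.mp hz
        obtain ⟨a', ha', h⟩ := Finset.mem_image.mp hz'
        exact hFd r r' hne a a' (Finset.mem_filter.mp ha).2 (Finset.mem_filter.mp ha').2 h.symm) Z
      (by omega)
    rw [Finset.disjoint_left] at hr
    have hrZ : ∀ a : Fin (l + 1), a.val < b → F r a ∉ Z := fun a ha => hr
      (Finset.mem_image_of_mem _ (Finset.mem_filter.mpr ⟨Finset.mem_univ _, ha⟩))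
    have h0b : ((0 : Fin (l + 1)) : ℕ) < b := by
      rw [Fin.val_zero]
      omega
    have hFw : ∀ a : Fin (l + 1), a.val < b → F r a ≠ w := by
      intro a ha h
      rw [← (hF r).2] at h
      have := congrArg Fin.val (hinj r _ _ h)
      simp only at this
      omega
    refine ⟨F r 0, hrZ 0 h0b, ?_, {i0}, fun _ a => F r ⟨min a l, by omega⟩, ?_, ?_, ?_, ?_⟩
    · intro i
      split_ifs with h
      · exact (hFw 0 h0b).symm
      · exact (hFSd r i 0 _ h0b (hyb i h)).symm
    · intro i hi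
      rw [Finset.mem_singleton] at hi
      rw [if_pos hi, hi, ← hb]
      constructor
      · intro a ha
        refine (h𝓟.wf.emb _ (hF r).1).1 _ _ ((PA_adj _ _).mpr (Or.inl ?_))
        simp only
        omega
      · intro a a' ha ha' h
        have := congrArg Fin.val (hinj r _ _ h)
        simp only at this
        omega
      · simp
      · rw [← (hF r).2]
        have h5 : (⟨min b l, by omega⟩ : Fin (l + 1)) = ⟨b, by omega⟩ :=
          Fin.ext (Nat.min_eq_left (by omega))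
        show F r ⟨min b l, _⟩ = _
        rw [h5]
      · intro a ha1 ha2
        refine hrZ _ ?_
        simp only
        omega
    · intro i hi i' a ha1 ha2
      rw [Finset.mem_singleton] at hi
      rw [hi, ← hb] at ha2
      have hlt : ((⟨min a l, by omega⟩ : Fin (l + 1)) : ℕ) < b := by
        simp only
        omega
      split_ifs with h
      · exact hFw _ hlt
      · exact hFSd r i' _ _ hlt (hyb i' h)
    · intro i hi i' hi' hne
      rw [Finset.mem_singleton] at hi hi'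
      exact absurd (hi.trans hi'.symm) hne
    · intro i hi Z' hZ'
      rw [Finset.mem_singleton] at hi
      rw [if_neg hi]
      have h1 := h𝓟.wf.leg (by omega) M (by omega) (by omega) _ (hFS r i) (j i) (hj i hi) Z'
        (by have := hje i; omega)
      have h2 : (if (j i - l) % 2 = 0 then Fin.last l else ⟨l - 1, by omega⟩ : Fin (l + 1)) = y i := by
        rw [hy]
      rw [h2, comb_lo _ _ _ _ _ (by simp), comb_hi _ _ _ _ _ (hyb i hi)] at h1
      exact h1

end Pool.Agent.Y428.Sp
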