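import Pool.Agent.Y428.Sp.WB2

set_option autoImplicit false

open Classical

namespace Pool.Agent.Y428.Sp

open Pool.Agent.TH476

/-- initial and final segments -/
def Pre (l b : ℕ) : Finset (Fin (l + 1)) := Finset.univ.filter (fun a => a.val ≤ b)

def Suf (l b : ℕ) : Finset (Fin (l + 1)) := Finset.univ.filter (fun a => b ≤ a.val)

lemma mem_Pre (l b : ℕ) (a : Fin (l + 1)) : a ∈ Pre l b ↔ a.val ≤ b := by
  unfold Pre
  simp

lemma mem_Suf (l b : ℕ) (a : Fin (l + 1)) : a ∈ Suf l b ↔ b ≤ a.val := by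
  unfold Suf
  simp

lemma card_Pre (l b : ℕ) (h : b ≤ l) : (Pre l b).card = b + 1 := by
  have h1 : Pre l b = (Finset.univ : Finset (Fin (b + 1))).map
      ⟨fun a => (⟨a.val, by omega⟩ : Fin (l + 1)), fun a a' h => Fin.ext (by
        have := congrArg Fin.val h
        simpa using this)⟩ := by
    ext a
    rw [mem_Pre, Finset.mem_map]
    constructor
    · intro h2
      exact ⟨⟨a.val, by omega⟩, Finset.mem_univ _, Fin.ext rfl⟩
    · rintro ⟨a', _, rfl⟩
      have := a'.2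
      show a'.val ≤ b
      omega
  rw [h1, Finset.card_map, Finset.card_univ, Fintype.card_fin]

lemma card_Suf (l b : ℕ) (h : b ≤ l) : (Suf l b).card = l - b + 1 := by
  have h1 : Suf l b = (Finset.univ : Finset (Fin (l - b + 1))).map
      ⟨fun a => (⟨b + a.val, by omega⟩ : Fin (l + 1)), fun a a' h => Fin.ext (by
        have := congrArg Fin.val h
        simp only at this
        omega)⟩ := by
    ext a
    rw [mem_Suf, Finset.mem_map]
    constructor
    · intro h2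
      have := a.2
      refine ⟨⟨a.val - b, by omega⟩, Finset.mem_univ _, Fin.ext ?_⟩
      show b + (a.val - b) = a.val
      omega
    · rintro ⟨a', _, rfl⟩
      show b ≤ b + a'.val
      omega
  rw [h1, Finset.card_map, Finset.card_univ, Fintype.card_fin]

/-- a dense cleaned family of paths, all initial and final segments dense -/
structure WG {V : Type} [Fintype V] (G : SimpleGraph V) (D l L' L2 E : ℕ)
    (𝓟 : Finset (Fin (l + 1) → V)) : Prop where
  wf : WF G D l L' L2 E 𝓟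
  pre : ∀ b, 1 ≤ b → b < l → ∀ P ∈ 𝓟,
    D ^ (l - b) ≤ E * (𝓟.filter (fun Q => Ag (Pre l b) Q P)).card
  suf : ∀ b, 1 ≤ b → b < l → ∀ P ∈ 𝓟,
    D ^ b ≤ E * (𝓟.filter (fun Q => Ag (Suf l b) Q P)).card

/-- from many rich paths to a cleaned family -/
lemma win_fam2 (K l A : ℕ) (hK : 0 < K) (hl : 2 ≤ l) :
    ∃ A' E, 0 < E ∧ ∀ L' L2, 0 < L' → L' ≤ L2 → ∃ L C0, ∀ (V : Type) [Fintype V] [Nonempty V]
      (G : SimpleGraph V) (D : ℕ), AR G D K → C0 ≤ D →
      Fintype.card V * D ^ l ≤ A * (RW G l L).card → WNA G D (l - 1) A' L' →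
      ∃ 𝓟 : Finset (Fin (l + 1) → V), WG G D l L' L2 E 𝓟 := by
  obtain ⟨A1, hA1⟩ : ∃ A1, A1 = A + 1 := ⟨_, rfl⟩
  obtain ⟨cκ, hcκ⟩ : ∃ cκ, cκ = 2 * (l + 1) + 1 := ⟨_, rfl⟩
  obtain ⟨E1, hE1⟩ : ∃ E1, E1 = 4 * A1 * cκ * K ^ l := ⟨_, rfl⟩
  have hKl : 0 < K ^ l := by positivity
  have hcκpos : 0 < cκ := by omega
  have hE1pos : 0 < E1 := by rw [hE1, hA1]; positivity
  refine ⟨4 * A1 * ((l + 1) * (l + 1) * K ^ l), 2 * E1 + 2 * A1, by omega, ?_⟩
  intro L' L2 hL' hL2
  obtain ⟨kk, hkk⟩ : ∃ kk, kk = kc L2 (l + 1) + 1 := ⟨_, rfl⟩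
  refine ⟨E1 * kk, E1 + 1, ?_⟩
  intro V _ _ G D hG hD hA hW
  have hDpos : 0 < D := by omega
  obtain ⟨X, hX⟩ : ∃ X, X = Fintype.card V * D ^ l := ⟨_, rfl⟩
  have hXpos : 0 < X := by
    rw [hX]
    have : 0 < Fintype.card V := Fintype.card_pos
    positivity
  obtain ⟨𝓦, h𝓦⟩ : ∃ 𝓦, 𝓦 = (RW G l (E1 * kk)).filter (fun p => ∃ Y : Finset (Fin (l + 1)),
    {0, Fin.last l} ⊂ Y ∧ Y ≠ Finset.univ ∧ Rich {q | Emb (PA l) G q} L' Y p) := ⟨_, rfl⟩
  obtain ⟨𝓕, h𝓕⟩ : ∃ 𝓕, 𝓕 = (RW G l (E1 * kk)).filter (fun p => ¬ ∃ Y : Finset (Fin (l + 1)),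
    {0, Fin.last l} ⊂ Y ∧ Y ≠ Finset.univ ∧ Rich {q | Emb (PA l) G q} L' Y p) := ⟨_, rfl⟩
  have hRWm : ∀ p ∈ RW G l (E1 * kk), Emb (PA l) G p ∧
      Rich {q | Emb (PA l) G q} (E1 * kk) {0, Fin.last l} p := by
    intro p hp
    unfold RW at hp
    exact (Finset.mem_filter.mp hp).2
  have hcardFW : 𝓦.card + 𝓕.card = (RW G l (E1 * kk)).card := by
    rw [h𝓦, h𝓕]
    exact Finset.card_filter_add_card_filter_not _
  have hbad := bad_paths G D K hG l (4 * A1) L' hK hW 𝓦 (by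
    intro p hp
    rw [h𝓦] at hp
    obtain ⟨h1, h2⟩ := Finset.mem_filter.mp hp
    exact ⟨(hRWm p h1).1, h2⟩)
  rw [← hX] at hbad hA
  have hF : 3 * X ≤ 4 * A1 * 𝓕.card := by
    have h1 : X ≤ A1 * (𝓦.card + 𝓕.card) := by
      rw [hcardFW, hA1]
      refine hA.trans (Nat.mul_le_mul_right _ (by omega))
    have h2 : A1 * (𝓦.card + 𝓕.card) = A1 * 𝓦.card + A1 * 𝓕.card := by ring
    have h3 : 4 * A1 * 𝓦.card = 4 * (A1 * 𝓦.card) := by ring
    have h4 : 4 * A1 * 𝓕.card = 4 * (A1 * 𝓕.card) := by ring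
    omega
  have h𝓕m : ∀ p ∈ 𝓕, Emb (PA l) G p ∧
      Rich {q | Emb (PA l) G q} (E1 * kk) {0, Fin.last l} p ∧
      ∀ Y : Finset (Fin (l + 1)), {0, Fin.last l} ⊂ Y → Y ≠ Finset.univ →
        ¬ Rich {q | Emb (PA l) G q} L' Y p := by
    intro p hp
    rw [h𝓕] at hp
    obtain ⟨h1, h2⟩ := Finset.mem_filter.mp hp
    exact ⟨(hRWm p h1).1, (hRWm p h1).2, fun Y h3 h4 h5 => h2 ⟨Y, h3, h4, h5⟩⟩
  have hne01 : (0 : Fin (l + 1)) ≠ Fin.last l := fun h => by
    have := congrArg Fin.val h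
    simp at this
    omega
  have hone : ((1 : Fin (l + 1)) : ℕ) = 1 := by
    rw [Fin.val_one']
    exact Nat.mod_eq_of_lt (by omega)
  have h10 : (1 : Fin (l + 1)) ≠ 0 := fun h => by
    have := congrArg Fin.val h
    rw [hone] at this
    simp at this
  have h1l : (1 : Fin (l + 1)) ≠ Fin.last l := fun h => by
    have := congrArg Fin.val h
    rw [hone] at this
    simp at this
    omega
  -- the tests
  obtain ⟨Ss, hSs⟩ : ∃ Ss : Option (Bool × Fin (l + 1)) → Finset (Fin (l + 1)),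
    Ss = fun i => match i with
      | none => {0, Fin.last l}
      | some (true, b) => Pre l b.val
      | some (false, b) => Suf l b.val := ⟨_, rfl⟩
  obtain ⟨mm, hmm⟩ : ∃ mm : Option (Bool × Fin (l + 1)) → ℕ, mm = fun i => match i with
      | none => kk
      | some (true, b) => if 1 ≤ b.val ∧ b.val < l then D ^ (l - b.val) / E1 else 0
      | some (false, b) => if 1 ≤ b.val ∧ b.val < l then D ^ b.val / E1 else 0 := ⟨_, rfl⟩
  obtain ⟨𝓟, hP1, hP2, hP3⟩ := cleanS Ss mm 𝓕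
  have t0 : 4 * A1 * cκ * (kk * imc {0, Fin.last l} 𝓕) ≤ X := by
    have h1 := rich_img (PA l) G (E1 * kk) {0, Fin.last l} (by
      intro h
      have : (1 : Fin (l + 1)) ∈ ({0, Fin.last l} : Finset (Fin (l + 1))) := by
        rw [h]
        exact Finset.mem_univ _
      rw [Finset.mem_insert, Finset.mem_singleton] at this
      rcases this with h | h
      · exact h10 h
      · exact h1l h) 𝓕 (fun p hp => (h𝓕m p hp).2.1)
      (Finset.univ.filter (fun p => Emb (PA l) G p))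
      (fun p hp => Finset.mem_filter.mpr ⟨Finset.mem_univ _, hp⟩)
    have h2 := emb_le (PA l) (PA_conn l) G D K hG 0
      (Finset.univ.filter (fun p => Emb (PA l) G p))
      (fun p hp => (Finset.mem_filter.mp hp).2.1)
    rw [Fintype.card_fin, Nat.add_sub_cancel] at h2
    have h3 : K ^ l * (4 * A1 * cκ * (kk * imc {0, Fin.last l} 𝓕)) ≤ K ^ l * X := by
      calc _ = imc {0, Fin.last l} 𝓕 * (E1 * kk) := by rw [hE1]; ring
        _ ≤ _ := h1
        _ ≤ _ := h2
        _ = K ^ l * X := by rw [hX, mul_pow]; ring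
    exact Nat.le_of_mul_le_mul_left h3 hKl
  have hmulpow : ∀ a b, a + b = l → D ^ a * (Fintype.card V * (K * D) ^ b) ≤ K ^ l * X := by
    intro a b hab
    rw [hX, mul_pow]
    have h1 : D ^ l = D ^ a * D ^ b := by rw [← pow_add, hab]
    have h2 : K ^ b ≤ K ^ l := Nat.pow_le_pow_right hK (by omega)
    calc D ^ a * (Fintype.card V * (K ^ b * D ^ b)) = K ^ b * (Fintype.card V * (D ^ a * D ^ b)) := by
          ring
      _ ≤ K ^ l * (Fintype.card V * (D ^ a * D ^ b)) := Nat.mul_le_mul_right _ h2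
      _ = _ := by rw [h1]
  have tgen : ∀ a b x, a + b = l → x ≤ Fintype.card V * (K * D) ^ b →
      4 * A1 * cκ * (D ^ a / E1 * x) ≤ X := by
    intro a b x hab hx
    have h3 : K ^ l * (4 * A1 * cκ * (D ^ a / E1 * x)) ≤ K ^ l * X := by
      calc _ = (E1 * (D ^ a / E1)) * x := by rw [hE1]; ring
        _ ≤ D ^ a * (Fintype.card V * (K * D) ^ b) :=
            Nat.mul_le_mul (Nat.mul_div_le _ _) hx
        _ ≤ _ := hmulpow a b hab
    exact Nat.le_of_mul_le_mul_left h3 hKl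
  have t1 : ∀ b, 1 ≤ b → b < l → imc (Suf l b) 𝓕 ≤ Fintype.card V * (K * D) ^ (l - b) := by
    intro b hb1 hb2
    have h1 := imc_le (PA l) G D K hG (Suf l b) (Fin.last l)
      ((mem_Suf _ _ _).mpr (by rw [Fin.val_last]; omega))
      (fun v => ⟨min (v.val + 1) l, by omega⟩) (fun v => l - v.val) (by
        intro v hv hvl
        have hv' : v.val ≠ l := fun h => hvl (Fin.ext h)
        have hv2 := v.2
        rw [mem_Suf] at hv
        refine ⟨?_, ?_, ?_⟩
        · rw [PA_adj]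
          right
          simp only
          omega
        · rw [mem_Suf]
          simp only
          omega
        · simp only
          omega) 𝓕 (fun p hp => (h𝓕m p hp).1.1)
    rw [card_Suf l b (by omega), Nat.add_sub_cancel] at h1
    exact h1
  have t2 : ∀ b, 1 ≤ b → b < l → imc (Pre l b) 𝓕 ≤ Fintype.card V * (K * D) ^ b := by
    intro b hb1 hb2
    have h1 := imc_le (PA l) G D K hG (Pre l b) 0
      ((mem_Pre _ _ _).mpr (by simp))
      (fun v => ⟨v.val - 1, by omega⟩) (fun v => v.val) (by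
        intro v hv hvl
        have hv' : v.val ≠ 0 := fun h => hvl (Fin.ext h)
        have hv2 := v.2
        rw [mem_Pre] at hv
        refine ⟨?_, ?_, ?_⟩
        · rw [PA_adj]
          left
          simp only
          omega
        · rw [mem_Pre]
          simp only
          omega
        · simp only
          omega) 𝓕 (fun p hp => (h𝓕m p hp).1.1)
    rw [card_Pre l b (by omega), Nat.add_sub_cancel] at h1
    exact h1
  have hsum : 4 * A1 * ∑ i, mm i * imc (Ss i) 𝓕 ≤ X := by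
    have h1 : ∀ i, 4 * A1 * cκ * (mm i * imc (Ss i) 𝓕) ≤ X := by
      intro i
      rw [hSs, hmm]
      rcases i with _ | ⟨_ | _, b⟩
      · exact t0
      · simp only
        split_ifs with hb
        · exact tgen b.val (l - b.val) _ (by omega) (t1 b.val hb.1 hb.2)
        · rw [zero_mul, mul_zero]
          exact Nat.zero_le _
      · simp only
        split_ifs with hb
        · exact tgen (l - b.val) b.val _ (by omega) (t2 b.val hb.1 hb.2)
        · rw [zero_mul, mul_zero]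
          exact Nat.zero_le _
    have h2 : cκ * (4 * A1 * ∑ i, mm i * imc (Ss i) 𝓕) ≤ cκ * X := by
      calc cκ * (4 * A1 * ∑ i, mm i * imc (Ss i) 𝓕) =
            ∑ i, 4 * A1 * cκ * (mm i * imc (Ss i) 𝓕) := by
            rw [← Finset.mul_sum]
            ring
        _ ≤ ∑ _i : Option (Bool × Fin (l + 1)), X := Finset.sum_le_sum fun i _ => h1 i
        _ = cκ * X := by
            rw [Finset.sum_const, Finset.card_univ, Fintype.card_option, Fintype.card_prod,
              Fintype.card_bool, Fintype.card_fin, smul_eq_mul, ← hcκ]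
    exact Nat.le_of_mul_le_mul_left h2 hcκpos
  have hPcard : X ≤ 2 * A1 * 𝓟.card := by
    have h1 : 4 * A1 * 𝓕.card ≤ 4 * A1 * 𝓟.card + 4 * A1 * ∑ i, mm i * imc (Ss i) 𝓕 := by
      rw [← Nat.mul_add]
      exact Nat.mul_le_mul_left _ hP3
    have h2 : 4 * A1 * 𝓟.card = 2 * (2 * A1 * 𝓟.card) := by ring
    omega
  have hE : ∀ a, 0 < a → ∀ y, D ^ a / E1 ≤ y → D ^ a ≤ (2 * E1 + 2 * A1) * y := by
    intro a ha y hy
    have h1 := floor_bd (D ^ a) E1 hE1pos (by
      calc E1 ≤ D := by omega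
        _ = D ^ 1 := (pow_one D).symm
        _ ≤ D ^ a := Nat.pow_le_pow_right hDpos ha) y hy
    exact h1.trans (Nat.mul_le_mul_right _ (by omega))
  have htest : ∀ P ∈ 𝓟, ∀ i S m, Ss i = S → mm i = m → m ≤ (𝓟.filter (fun Q => Ag S Q P)).card := by
    intro P hP i S m h1 h2
    subst h1
    subst h2
    exact hP2 P hP i
  have hpre : ∀ b, 1 ≤ b → b < l → ∀ P ∈ 𝓟,
      D ^ (l - b) ≤ (2 * E1 + 2 * A1) * (𝓟.filter (fun Q => Ag (Pre l b) Q P)).card := by
    intro b hb1 hb2 P hP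
    have h1 := htest P hP (some (true, ⟨b, by omega⟩)) (Pre l b) (D ^ (l - b) / E1)
      (by rw [hSs]) (by rw [hmm]; simp only; rw [if_pos ⟨hb1, hb2⟩])
    exact hE (l - b) (by omega) _ h1
  have hsuf : ∀ b, 1 ≤ b → b < l → ∀ P ∈ 𝓟,
      D ^ b ≤ (2 * E1 + 2 * A1) * (𝓟.filter (fun Q => Ag (Suf l b) Q P)).card := by
    intro b hb1 hb2 P hP
    have h1 := htest P hP (some (false, ⟨b, by omega⟩)) (Suf l b) (D ^ b / E1)
      (by rw [hSs]) (by rw [hmm]; simp only; rw [if_pos ⟨hb1, hb2⟩])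
    exact hE b (by omega) _ h1
  have hconv : ∀ (S S' : Finset (Fin (l + 1))) (P : Fin (l + 1) → V), (∀ a, a ∈ S' → a ∈ S) →
      (𝓟.filter (fun Q => Ag S Q P)).card ≤ (𝓟.filter (fun Q => Ag S' Q P)).card := by
    intro S S' P h
    refine Finset.card_le_card ?_
    intro Q hQ
    obtain ⟨h1, h2⟩ := Finset.mem_filter.mp hQ
    exact Finset.mem_filter.mpr ⟨h1, fun a ha => h2 a (h a ha)⟩
  refine ⟨𝓟, ⟨⟨?_, ?_, ?_, ?_, ?_, ?_, ?_, ?_⟩, hpre, hsuf⟩⟩
  · rw [← Finset.card_pos]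
    by_contra h
    have : 𝓟.card = 0 := by omega
    rw [this, mul_zero] at hPcard
    omega
  · exact fun P hP => (h𝓕m P (hP1 hP)).1
  · exact fun P hP => (h𝓕m P (hP1 hP)).2.2
  · intro P hP
    have h1 := htest P hP none {0, Fin.last l} kk (by rw [hSs]) (by rw [hmm])
    refine rich_of_many {q | Emb (PA l) G q} 𝓟 (fun Q hQ => (h𝓕m Q (hP1 hQ)).1) L2 (by omega)
      {0, Fin.last l} (fun Q hQ Y h2 h3 h4 => (h𝓕m Q (hP1 hQ)).2.2 Y h2 h3 (rich_mono hL2 h4)) P ?_
    rw [Fintype.card_fin]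
    omega
  · intro P hP
    have h1 := hsuf 1 le_rfl (by omega) P hP
    rw [pow_one] at h1
    refine h1.trans (Nat.mul_le_mul_left _ (hconv _ _ P ?_))
    intro a ha
    rw [mem_Suf]
    have h2 : a.val ≠ 0 := fun h => (Finset.mem_erase.mp ha).1 (Fin.ext h)
    omega
  · intro P hP
    have h1 := hpre (l - 1) (by omega) (by omega) P hP
    rw [show l - (l - 1) = 1 by omega, pow_one] at h1
    refine h1.trans (Nat.mul_le_mul_left _ (hconv _ _ P ?_))
    intro a ha
    rw [mem_Pre]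
    have h2 : a.val ≠ l := fun h => (Finset.mem_erase.mp ha).1 (Fin.ext h)
    have := a.2
    omega
  · intro P hP
    refine (hpre 1 le_rfl (by omega) P hP).trans (Nat.mul_le_mul_left _ (hconv _ _ P ?_))
    intro a ha
    rw [mem_Pre]
    rw [Finset.mem_insert, Finset.mem_singleton] at ha
    rcases ha with h | h
    · rw [h]
      simp
    · rw [h, hone]
  · rw [← hX]
    exact hPcard.trans (Nat.mul_le_mul_right _ (by omega))

end Pool.Agent.Y428.Sp
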